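import Mathlib

namespace Pool.Agent.P.MP_b1a016_al

variable {G : Type*} [Group G] [TopologicalSpace G] [IsTopologicalGroup G] [CompactSpace G]
  [TotallyDisconnectedSpace G]

theorem exists_open_normal {U : Set G} (hU : IsOpen U) {g : G} (hg : g ∈ U) :
    ∃ N : Subgroup G, N.Normal ∧ IsOpen (N : Set G) ∧ ∀ u ∈ N, g * u ∈ U := by
  have h1 : IsOpen ((fun u => g * u) ⁻¹' U) := hU.preimage (by fun_prop)
  obtain ⟨N, hN⟩ := ProfiniteGrp.exist_openNormalSubgroup_sub_open_nhds_of_one h1 (by simpa using hg)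
  exact ⟨N.toSubgroup, N.isNormal', N.isOpen', fun u hu => hN hu⟩

theorem mem_closure_of_forall (H : Subgroup G) (g : G)
    (h : ∀ N : Subgroup G, N.Normal → IsOpen (N : Set G) → ∃ a ∈ H, g⁻¹ * a ∈ N) :
    g ∈ H.topologicalClosure := by
  have : g ∈ closure (H : Set G) := by
    rw [mem_closure_iff]
    intro U hU hg
    obtain ⟨N, hN, hNo, hNU⟩ := exists_open_normal hU hg
    obtain ⟨a, ha, hga⟩ := h N hN hNo
    refine ⟨a, ?_, ha⟩
    simpa using hNU _ hga
  exact this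

omit [CompactSpace G] [TotallyDisconnectedSpace G] in
theorem exists_of_mem_closure (H : Subgroup G) (g : G) (hg : g ∈ H.topologicalClosure)
    (N : Subgroup G) (hN : IsOpen (N : Set G)) : ∃ a ∈ H, g⁻¹ * a ∈ N := by
  have hg' : g ∈ closure (H : Set G) := hg
  rw [mem_closure_iff] at hg'
  have h1 : IsOpen ((fun u => g⁻¹ * u) ⁻¹' (N : Set G)) := hN.preimage (by fun_prop)
  obtain ⟨a, ha, ha'⟩ := hg' _ h1 (by simp)
  exact ⟨a, ha', ha⟩

theorem pow_mem_closure [T2Space G] {p : ℕ} (hp : p.Prime)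
    (hpro : ∀ N : Subgroup G, ∀ [N.Normal], IsOpen (N : Set G) → IsPGroup p (G ⧸ N))
    {x c : G} (hc : c ∈ (Subgroup.zpowers x).topologicalClosure) (hc1 : c ≠ 1) :
    ∃ k : ℕ, x ^ (p ^ k) ∈ (Subgroup.zpowers c).topologicalClosure := by
  obtain ⟨N₀, hN₀, hN₀o, hN₀c⟩ := exists_open_normal (U := {c}ᶜ) isOpen_compl_singleton (g := 1)
    (by simpa using hc1.symm)
  have hcN : c ∉ N₀ := fun h => by simpa using hN₀c c h
  obtain ⟨k, hk⟩ := hpro N₀ hN₀o (x : G ⧸ N₀)
  have hk' : x ^ (p ^ k) ∈ N₀ := by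
    rw [← QuotientGroup.eq_one_iff]; simpa using hk
  refine ⟨k, mem_closure_of_forall _ _ fun N hN hNo => ?_⟩
  have hKo : IsOpen ((N ⊓ N₀ : Subgroup G) : Set G) := hNo.inter hN₀o
  obtain ⟨a, ha, hca⟩ := exists_of_mem_closure _ c hc (N ⊓ N₀) hKo
  obtain ⟨m, rfl⟩ := Subgroup.mem_zpowers_iff.1 ha
  obtain ⟨j, hj⟩ := hpro N hNo (x : G ⧸ N)
  have hdvd : Int.gcd m ((p : ℤ) ^ j) ∣ p ^ j := by
    have := Int.gcd_dvd_right (a := m) (b := (p : ℤ) ^ j)
    exact_mod_cast this
  obtain ⟨a, -, ha⟩ := (Nat.dvd_prime_pow hp).1 hdvd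
  have hak : a ≤ k := by
    by_contra hlt
    have h1 : ((p : ℤ) ^ k) ∣ m := by
      have h2 : ((Int.gcd m ((p : ℤ) ^ j) : ℕ) : ℤ) ∣ m := Int.gcd_dvd_left ..
      rw [ha] at h2
      refine dvd_trans ?_ h2
      push_cast
      exact pow_dvd_pow _ (by omega)
    obtain ⟨t, rfl⟩ := h1
    apply hcN
    have h3 : x ^ ((p : ℤ) ^ k * t) ∈ N₀ := by
      rw [zpow_mul]
      refine N₀.zpow_mem ?_ t
      have : x ^ ((p : ℤ) ^ k) = x ^ (p ^ k) := by
        rw [← zpow_natCast]; push_cast; rfl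
      rw [this]; exact hk'
    have h4 := N₀.mul_mem h3 (N₀.inv_mem hca.2)
    simpa using h4
  have hbez := Int.gcd_eq_gcd_ab m ((p : ℤ) ^ j)
  rw [ha] at hbez
  refine ⟨c ^ (Int.gcdA m ((p : ℤ) ^ j) * (p : ℤ) ^ (k - a)), Subgroup.zpow_mem_zpowers _ _, ?_⟩
  rw [← QuotientGroup.eq]
  have hcm : (c : G ⧸ N) = (x : G ⧸ N) ^ m := by
    have := QuotientGroup.eq.2 hca.1
    simpa using this
  have hj' : (x : G ⧸ N) ^ ((p : ℤ) ^ j) = 1 := by
    rw [← hj, ← zpow_natCast]; push_cast; rfl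
  have e1 : ((p : ℤ) ^ k) = m * (Int.gcdA m ((p : ℤ) ^ j) * (p : ℤ) ^ (k - a)) +
      (p : ℤ) ^ j * (Int.gcdB m ((p : ℤ) ^ j) * (p : ℤ) ^ (k - a)) := by
    have : (p : ℤ) ^ k = (p : ℤ) ^ a * (p : ℤ) ^ (k - a) := by
      rw [← pow_add]; congr 1; omega
    push_cast at hbez
    rw [this]
    calc (p : ℤ) ^ a * (p : ℤ) ^ (k - a) = (m * Int.gcdA m ((p : ℤ) ^ j) +
        (p : ℤ) ^ j * Int.gcdB m ((p : ℤ) ^ j)) * (p : ℤ) ^ (k - a) := by rw [← hbez]
      _ = _ := by ring
  simp only [QuotientGroup.mk_pow, QuotientGroup.mk_zpow, hcm]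
  rw [← zpow_mul, ← zpow_natCast]
  push_cast
  rw [e1, zpow_add, zpow_mul _ ((p : ℤ) ^ j), hj', one_zpow, mul_one]

omit [CompactSpace G] [TotallyDisconnectedSpace G] in
theorem commute_of_mem_closure [T2Space G] {x g y : G} (h : x * g = g * x)
    (hy : y ∈ (Subgroup.zpowers x).topologicalClosure) : y * g = g * y := by
  have hcl : IsClosed {z : G | z * g = g * z} := isClosed_eq (by fun_prop) (by fun_prop)
  have hsub : (Subgroup.zpowers x : Set G) ⊆ {z : G | z * g = g * z} := by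
    intro z hz
    obtain ⟨m, rfl⟩ := Subgroup.mem_zpowers_iff.1 hz
    exact (Commute.zpow_left h m).eq
  exact closure_minimal hsub hcl hy

omit [CompactSpace G] [TotallyDisconnectedSpace G] in
theorem closure_zpowers_of_pow [T2Space G] {x : G} {n : ℕ} (hn : 0 < n) (h : x ^ n = 1) :
    (Subgroup.zpowers x).topologicalClosure = Subgroup.zpowers x := by
  have hfin : (Subgroup.zpowers x : Set G).Finite := by
    have : IsOfFinOrder x := isOfFinOrder_iff_pow_eq_one.2 ⟨n, hn, h⟩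
    exact this.finite_zpowers
  exact le_antisymm (Subgroup.topologicalClosure_minimal _ le_rfl hfin.isClosed)
    (Subgroup.le_topologicalClosure _)

theorem torsion_of_not_commute [T2Space G] {p : ℕ} (hp : p.Prime)
    (hpro : ∀ N : Subgroup G, ∀ [N.Normal], IsOpen (N : Set G) → IsPGroup p (G ⧸ N))
    {x g : G} (hx : (Subgroup.zpowers x).topologicalClosure.Normal)
    (hg : (Subgroup.zpowers g).topologicalClosure.Normal) (hxg : x * g ≠ g * x) :
    ∃ n : ℕ, x ^ (n + 1) = 1 := by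
  set c := x * g * x⁻¹ * g⁻¹ with hc
  have hxx : x ∈ (Subgroup.zpowers x).topologicalClosure :=
    Subgroup.le_topologicalClosure _ (Subgroup.mem_zpowers x)
  have hgg : g ∈ (Subgroup.zpowers g).topologicalClosure :=
    Subgroup.le_topologicalClosure _ (Subgroup.mem_zpowers g)
  have hcx : c ∈ (Subgroup.zpowers x).topologicalClosure := by
    have := Subgroup.mul_mem _ hxx (hx.conj_mem _ (Subgroup.inv_mem _ hxx) g)
    simpa [hc, mul_assoc] using this
  have hcg : c ∈ (Subgroup.zpowers g).topologicalClosure :=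
    Subgroup.mul_mem _ (hg.conj_mem _ hgg x) (Subgroup.inv_mem _ hgg)
  have hc1 : c ≠ 1 := by
    intro h
    apply hxg
    calc x * g = c * (g * x) := by simp [hc, mul_assoc]
      _ = g * x := by rw [h, one_mul]
  have h1 : c * x = x * c := commute_of_mem_closure rfl hcx
  have h2 : c * g = g * c := commute_of_mem_closure rfl hcg
  obtain ⟨k, hk⟩ := pow_mem_closure hp hpro hcx hc1
  have h3 : x ^ (p ^ k) * g = g * x ^ (p ^ k) := commute_of_mem_closure h2 hk
  have h4 : ∀ n : ℕ, x ^ n * g = c ^ n * g * x ^ n := by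
    intro n
    induction n with
    | zero => simp
    | succ n ih =>
      have e : x * g = c * g * x := by simp [hc, mul_assoc]
      have h5 : Commute x (c ^ n) := (Commute.pow_right (h1.symm : Commute x c) n)
      calc x ^ (n + 1) * g = x * (x ^ n * g) := by rw [pow_succ', mul_assoc]
        _ = x * c ^ n * g * x ^ n := by rw [ih]; simp [mul_assoc]
        _ = c ^ n * (x * g) * x ^ n := by rw [h5.eq]; simp [mul_assoc]
        _ = c ^ (n + 1) * g * x ^ (n + 1) := by rw [e, pow_succ, pow_succ']; simp [mul_assoc]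
  have h5 : c ^ (p ^ k) = 1 := by
    have := h4 (p ^ k)
    rw [h3, mul_assoc] at this
    simpa using this.symm
  have hpk : 0 < p ^ k := pow_pos hp.pos k
  rw [closure_zpowers_of_pow hpk h5] at hk
  obtain ⟨m, hm⟩ := Subgroup.mem_zpowers_iff.1 hk
  refine ⟨p ^ k * p ^ k - 1, ?_⟩
  have : p ^ k * p ^ k - 1 + 1 = p ^ k * p ^ k := Nat.sub_add_cancel (Nat.mul_pos hpk hpk)
  rw [this, pow_mul, ← hm, ← zpow_natCast, ← zpow_mul, mul_comm, zpow_mul, zpow_natCast, h5,
    one_zpow]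

theorem finite_exponent [T2Space G] {p : ℕ} (hp : p.Prime)
    (hpro : ∀ N : Subgroup G, ∀ [N.Normal], IsOpen (N : Set G) → IsPGroup p (G ⧸ N))
    (S : Subgroup G) (hS : IsClosed (S : Set G)) (hSt : S ≠ ⊤)
    (hn : ∀ x, x ∉ S → (Subgroup.zpowers x).topologicalClosure.Normal)
    (hna : ∃ a b : G, a * b ≠ b * a) :
    ∃ n : ℕ, 0 < n ∧ ∀ g : G, g ^ n = 1 := by
  set V : Set G := {x | x ∉ S ∧ ∃ g, g ∉ S ∧ x * g ≠ g * x} with hV
  have hVo : IsOpen V := by
    have : V = (S : Set G)ᶜ ∩ ⋃ g ∈ (S : Set G)ᶜ, {x : G | x * g = g * x}ᶜ := by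
      ext x; simp [hV]
    rw [this]
    refine hS.isOpen_compl.inter (isOpen_biUnion fun g _ => ?_)
    exact (isClosed_eq (by fun_prop) (by fun_prop)).isOpen_compl
  have hVn : V.Nonempty := by
    by_contra hne
    have hcomm : ∀ x, x ∉ S → ∀ g, g ∉ S → Commute x g := by
      intro x hx g hg
      by_contra h
      exact hne ⟨x, hx, g, hg, h⟩
    obtain ⟨t, ht⟩ : ∃ t, t ∉ S := by
      by_contra h
      push Not at h
      exact hSt ((Subgroup.eq_top_iff' S).2 h)
    have hmul : ∀ a ∈ S, a * t ∉ S := fun a ha h => ht (by simpa using S.mul_mem (S.inv_mem ha) h)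
    have h1 : ∀ x, x ∉ S → ∀ g, Commute x g := by
      intro x hx g
      by_cases hg : g ∈ S
      · have := (hcomm x hx _ (hmul g hg)).mul_right (hcomm x hx t ht).inv_right
        simpa using this
      · exact hcomm x hx g hg
    obtain ⟨a, b, hab⟩ := hna
    apply hab
    by_cases ha : a ∈ S
    · have := (h1 _ (hmul a ha) b).mul_left (h1 t ht b).inv_left
      simpa using this.eq
    · exact (h1 a ha b).eq
  let f : Option ℕ → Set G := fun o => match o with
    | none => Vᶜ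
    | some n => {y | y ^ (n + 1) = 1}
  have hfc : ∀ o, IsClosed (f o) := by
    rintro (_ | n)
    · exact hVo.isClosed_compl
    · exact isClosed_eq (by fun_prop) (by fun_prop)
  have hfU : ⋃ o, f o = Set.univ := by
    refine Set.eq_univ_of_forall fun y => Set.mem_iUnion.2 ?_
    by_cases hy : y ∈ V
    · obtain ⟨hyS, g, hgS, hyg⟩ := hy
      obtain ⟨n, hn'⟩ := torsion_of_not_commute hp hpro (hn y hyS) (hn g hgS) hyg
      exact ⟨some n, hn'⟩
    · exact ⟨none, hy⟩
  obtain ⟨x, hxV, hx⟩ := (dense_iUnion_interior_of_closed hfc hfU).inter_open_nonempty V hVo hVn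
  obtain ⟨o, ho⟩ := Set.mem_iUnion.1 hx
  rcases o with _ | n
  · exact absurd hxV (interior_subset ho)
  obtain ⟨N, hN, hNo, hNx⟩ := exists_open_normal isOpen_interior ho
  have hx1 : x ^ (n + 1) = 1 := (interior_subset ho : x ∈ f (some n))
  have hnorm : (Subgroup.zpowers x).Normal := by
    rw [← closure_zpowers_of_pow (Nat.succ_pos n) hx1]; exact hn x hxV.1
  have hNexp : ∀ u ∈ N, u ^ ((n + 1) * (n + 1)) = 1 := by
    intro u hu
    have hy : (x * u) ^ (n + 1) = 1 := (interior_subset (hNx u hu) : x * u ∈ f (some n))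
    have h1 : u ^ (n + 1) ∈ Subgroup.zpowers x := by
      rw [← QuotientGroup.eq_one_iff]
      have h2 : ((x : G ⧸ Subgroup.zpowers x)) = 1 :=
        (QuotientGroup.eq_one_iff x).2 (Subgroup.mem_zpowers x)
      have h3 := congrArg (fun z : G => (z : G ⧸ Subgroup.zpowers x)) hy
      simpa [h2] using h3
    obtain ⟨m, hm⟩ := Subgroup.mem_zpowers_iff.1 h1
    rw [pow_mul, ← hm, ← zpow_natCast, ← zpow_mul, mul_comm, zpow_mul, zpow_natCast, hx1,
      one_zpow]
  have hfin : Finite (G ⧸ N) := N.quotient_finite_of_isOpen hNo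
  have hidx : N.index ≠ 0 := Subgroup.index_ne_zero_of_finite
  refine ⟨N.index * ((n + 1) * (n + 1)), by positivity, fun g => ?_⟩
  rw [pow_mul]
  exact hNexp _ (N.pow_index_mem g)

end Pool.Agent.P.MP_b1a016_al
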