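import Mathlib

/-! Abstract part: groups of prime power exponent in which every cyclic subgroup generated by
an element outside a proper subgroup is normal. -/

namespace Pool.Agent.P.MP_b1a016_al

open Subgroup
open scoped commutatorElement

variable {G : Type*} [Group G]

theorem two_cover {A B : Subgroup G} (hA : A ≠ ⊤) (hB : ∀ g, g ∉ A → g ∈ B) : B = ⊤ := by
  obtain ⟨t, ht⟩ : ∃ t, t ∉ A := by
    by_contra h
    push Not at h
    exact hA ((Subgroup.eq_top_iff' A).2 h)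
  refine (Subgroup.eq_top_iff' B).2 fun g => ?_
  by_cases hg : g ∈ A
  · have h1 : g * t ∉ A := fun h => ht (by simpa using A.mul_mem (A.inv_mem hg) h)
    simpa using B.mul_mem (hB _ h1) (B.inv_mem (hB t ht))
  · exact hB g hg

theorem central_of_outside {S : Subgroup G} (hS : S ≠ ⊤) {y : G}
    (h : ∀ x, x ∉ S → x * y = y * x) : y ∈ center G := by
  have h1 : centralizer ({y} : Set G) = ⊤ :=
    two_cover hS fun g hg => mem_centralizer_singleton_iff.2 (h g hg)
  refine mem_center_iff.2 fun g => ?_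
  exact mem_centralizer_singleton_iff.1 (h1 ▸ mem_top g)

theorem conj_zpow_eq {a x : G} {m : ℤ} (h : a * x * a⁻¹ = x ^ m) (n : ℤ) :
    a * x ^ n * a⁻¹ = x ^ (m * n) := by
  rw [← conj_zpow, h, ← zpow_mul]

theorem class_two {S : Subgroup G} (hS : S ≠ ⊤) (hn : ∀ x, x ∉ S → (zpowers x).Normal)
    (a b : G) : ⁅a, b⁆ ∈ center G := by
  refine central_of_outside hS fun x hx => ?_
  obtain ⟨m, hm⟩ := mem_zpowers_iff.1 ((hn x hx).conj_mem x (mem_zpowers x) a⁻¹)
  obtain ⟨n, hn'⟩ := mem_zpowers_iff.1 ((hn x hx).conj_mem x (mem_zpowers x) b⁻¹)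
  have h1 := conj_zpow_eq hm.symm n
  have h2 := conj_zpow_eq hn'.symm m
  rw [hn'] at h1
  rw [hm, mul_comm n m, ← h1] at h2
  rw [commutatorElement_def]
  calc x * (a * b * a⁻¹ * b⁻¹)
      = a * b * (b⁻¹ * (a⁻¹ * x * a⁻¹⁻¹) * b⁻¹⁻¹) * a⁻¹ * b⁻¹ := by group
    _ = a * b * (a⁻¹ * (b⁻¹ * x * b⁻¹⁻¹) * a⁻¹⁻¹) * a⁻¹ * b⁻¹ := by rw [h2]
    _ = _ := by group

theorem comm_mul_left (h2 : ∀ a b : G, ⁅a, b⁆ ∈ center G) (a b g : G) :
    ⁅a * b, g⁆ = ⁅a, g⁆ * ⁅b, g⁆ := by
  rw [commutatorElement_mul_left_eq_conj_mul, mem_center_iff.1 (h2 b g) a,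
    mem_center_iff.1 (h2 b g) ⁅a, g⁆]
  group

theorem comm_pow_left (h2 : ∀ a b : G, ⁅a, b⁆ ∈ center G) (a g : G) (n : ℕ) :
    ⁅a ^ n, g⁆ = ⁅a, g⁆ ^ n := by
  induction n with
  | zero => simp
  | succ n ih => rw [pow_succ, comm_mul_left h2, ih, pow_succ]

theorem comm_pow_right (h2 : ∀ a b : G, ⁅a, b⁆ ∈ center G) (a g : G) (n : ℕ) :
    ⁅a, g ^ n⁆ = ⁅a, g⁆ ^ n := by
  rw [← commutatorElement_inv, comm_pow_left h2, ← inv_pow, commutatorElement_inv]

theorem mul_pow_class_two (h2 : ∀ a b : G, ⁅a, b⁆ ∈ center G) (a b : G) (n : ℕ) :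
    (a * b) ^ n = a ^ n * b ^ n * ⁅b, a⁆ ^ n.choose 2 := by
  induction n with
  | zero => simp
  | succ n ih =>
    have hz : ∀ (k : ℕ) (g : G), g * ⁅b, a⁆ ^ k = ⁅b, a⁆ ^ k * g := fun k g =>
      mem_center_iff.1 (pow_mem (h2 b a) k) g
    have e : b ^ n * a = a * b ^ n * ⁅b, a⁆ ^ n := by
      rw [hz, ← comm_pow_left h2, commutatorElement_def]
      group
    have hch : (n + 1).choose 2 = n + n.choose 2 := by
      rw [Nat.choose_succ_succ' n 1, Nat.choose_one_right]
    rw [pow_succ (a * b), ih, hch, pow_add ⁅b, a⁆, pow_succ a n, pow_succ b n]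
    calc a ^ n * b ^ n * ⁅b, a⁆ ^ n.choose 2 * (a * b)
        = a ^ n * (b ^ n * a) * (b * ⁅b, a⁆ ^ n.choose 2) := by
          rw [mul_assoc (a ^ n * b ^ n), ← hz]
          simp only [mul_assoc]
      _ = a ^ n * a * b ^ n * (⁅b, a⁆ ^ n * b) * ⁅b, a⁆ ^ n.choose 2 := by
          rw [e]
          simp only [mul_assoc]
      _ = _ := by
          rw [← hz]
          simp only [mul_assoc]

theorem mem_zpowers_of_cyclic {x u v : G} (hx : IsOfFinOrder x) (hu : u ∈ zpowers x)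
    (hv : v ∈ zpowers x) (h : v ^ orderOf u = 1) : v ∈ zpowers u := by
  classical
  have : Finite (zpowers x) := finite_zpowers.2 hx
  have : Fintype (zpowers x) := Fintype.ofFinite (zpowers x)
  set u' : zpowers x := ⟨u, hu⟩ with hu'
  have ho : orderOf u' = orderOf u := (Subgroup.orderOf_coe u').symm
  have h1 := IsCyclic.card_pow_eq_one_le (α := zpowers x) (orderOf_pos u')
  have hsub : (Finset.univ.filter fun a : zpowers x => a ∈ zpowers u') ⊆
      Finset.univ.filter fun a : zpowers x => a ^ orderOf u' = 1 := by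
    intro a ha
    simp only [Finset.mem_filter, Finset.mem_univ, true_and] at ha ⊢
    obtain ⟨m, rfl⟩ := mem_zpowers_iff.1 ha
    rw [← zpow_natCast, ← zpow_mul, mul_comm, zpow_mul, zpow_natCast, pow_orderOf_eq_one,
      one_zpow]
  have hcard : (Finset.univ.filter fun a : zpowers x => a ∈ zpowers u').card = orderOf u' := by
    rw [← Fintype.card_zpowers, Fintype.card_subtype]
  have heq := Finset.eq_of_subset_of_card_le hsub (by rw [hcard]; exact h1)
  have hv' : (⟨v, hv⟩ : zpowers x) ∈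
      Finset.univ.filter fun a : zpowers x => a ^ orderOf u' = 1 := by
    simp only [Finset.mem_filter, Finset.mem_univ, true_and]
    apply Subtype.ext
    simpa [ho] using h
  rw [← heq] at hv'
  simp only [Finset.mem_filter, Finset.mem_univ, true_and] at hv'
  obtain ⟨m, hm⟩ := mem_zpowers_iff.1 hv'
  exact mem_zpowers_iff.2 ⟨m, by simpa [hu'] using congrArg Subtype.val hm⟩

theorem comm_mem_left {w : G} (hw : (zpowers w).Normal) (g : G) : ⁅w, g⁆ ∈ zpowers w := by
  have := mul_mem (mem_zpowers w) (hw.conj_mem _ (inv_mem (mem_zpowers w)) g)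
  simpa [commutatorElement_def, mul_assoc] using this

theorem comm_mem_right {w : G} (hw : (zpowers w).Normal) (g : G) : ⁅g, w⁆ ∈ zpowers w := by
  rw [← commutatorElement_inv]
  exact inv_mem (comm_mem_left hw g)

/-- The structure of the commutator subgroup and of the powers. -/
theorem power_structure {p N : ℕ} (hp : p.Prime) (hexp : ∀ g : G, g ^ p ^ N = 1)
    {S : Subgroup G} (hS : S ≠ ⊤) (hn : ∀ x, x ∉ S → (zpowers x).Normal)
    (hna : ∃ a b : G, a * b ≠ b * a) :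
    ∃ (j : ℕ) (x : G), (∀ a b : G, ⁅a, b⁆ ∈ zpowers (x ^ p ^ j)) ∧
      (∃ w t : G, w ∉ S ∧ t ∉ S ∧ zpowers ⁅w, t⁆ = zpowers (x ^ p ^ j)) ∧
      ∀ g : G, g ^ p ^ j ∈ zpowers (x ^ p ^ j) := by
  classical
  have : Fact p.Prime := ⟨hp⟩
  have h2 := class_two hS hn
  have hfin : ∀ g : G, IsOfFinOrder g := fun g =>
    isOfFinOrder_iff_pow_eq_one.2 ⟨p ^ N, pow_pos hp.pos N, hexp g⟩
  have hex : ∃ k : ℕ, ∀ g : G, g ^ p ^ k ∈ center G := ⟨N, fun g => by rw [hexp]; exact one_mem _⟩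
  obtain ⟨k, hk, hk'⟩ : ∃ k : ℕ, (∀ g : G, g ^ p ^ (k + 1) ∈ center G) ∧
      ∃ g : G, g ^ p ^ k ∉ center G := by
    have h0 : Nat.find hex ≠ 0 := by
      intro h
      have h1 := Nat.find_spec hex
      rw [h] at h1
      obtain ⟨a, b, hab⟩ := hna
      exact hab (mem_center_iff.1 (by simpa using h1 b) a)
    obtain ⟨k, hk⟩ := Nat.exists_eq_succ_of_ne_zero h0
    refine ⟨k, by simpa [hk] using Nat.find_spec hex, ?_⟩
    have := Nat.find_min hex (show k < Nat.find hex by omega)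
    push Not at this
    exact this
  obtain ⟨g₀, hg₀⟩ := hk'
  obtain ⟨y, hyS, hy⟩ : ∃ y, y ∉ S ∧ y * g₀ ^ p ^ k ≠ g₀ ^ p ^ k * y := by
    by_contra h
    push Not at h
    exact hg₀ (central_of_outside hS h)
  have hall : ∀ a b : G, ⁅a, b⁆ ^ p ^ (k + 1) = 1 := fun a b => by
    rw [← comm_pow_left h2, commutatorElement_eq_one_iff_mul_comm]
    exact (mem_center_iff.1 (hk a) b).symm
  set M : Subgroup G := centralizer ({y ^ p ^ k} : Set G) with hM
  have hmemM : ∀ a, a ∈ M ↔ ⁅a, y⁆ ^ p ^ k = 1 := fun a => by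
    rw [hM, mem_centralizer_singleton_iff, ← comm_pow_right h2,
      commutatorElement_eq_one_iff_mul_comm]
  have hg₀M : g₀ ∉ M := by
    rw [hmemM, ← comm_pow_left h2, commutatorElement_eq_one_iff_mul_comm]
    exact fun h => hy h.symm
  have hMt : M ≠ ⊤ := fun h => hg₀M (h ▸ mem_top g₀)
  have hyM : y ∈ M := by rw [hmemM]; simp
  have hord : ∀ a, a ∉ M → orderOf ⁅a, y⁆ = p ^ (k + 1) := fun a ha =>
    orderOf_eq_prime_pow (fun h => ha ((hmemM a).2 h)) (hall a y)
  have hout : ∀ g, g ∉ M → ∃ w, w ∉ S ∧ w ∉ M ∧ (w = g ∨ w = g * y) := by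
    intro g hg
    by_cases hgS : g ∈ S
    · refine ⟨g * y, fun h => hyS ?_, fun h => hg ?_, Or.inr rfl⟩
      · simpa using S.mul_mem (S.inv_mem hgS) h
      · simpa using M.mul_mem h (M.inv_mem hyM)
    · exact ⟨g, hgS, hg, Or.inl rfl⟩
  have hgen : ∀ T : Subgroup G, y ∈ T → (∀ w, w ∉ S → w ∉ M → w ∈ T) → ∀ g, g ∈ T := by
    intro T hyT hT
    have : T = ⊤ := by
      refine two_cover hMt fun g hg => ?_
      obtain ⟨w, hwS, hwM, rfl | rfl⟩ := hout g hg
      · exact hT _ hwS hwM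
      · simpa using T.mul_mem (hT _ hwS hwM) (T.inv_mem hyT)
    exact fun g => this ▸ mem_top g
  obtain ⟨w₀, hw₀S, hw₀M, -⟩ := hout g₀ hg₀M
  set c := ⁅w₀, y⁆ with hc
  have hco : orderOf c = p ^ (k + 1) := hord w₀ hw₀M
  have hcy : c ∈ zpowers y := comm_mem_right (hn y hyS) w₀
  have hcw : ∀ w, w ∉ S → w ∉ M → c ∈ zpowers w := by
    intro w hwS hwM
    have h1 : c ∈ zpowers ⁅w, y⁆ :=
      mem_zpowers_of_cyclic (hfin y) (comm_mem_right (hn y hyS) w) hcy
        (by rw [hord w hwM]; exact hall _ _)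
    exact (zpowers_le.2 (comm_mem_left (hn w hwS) y)) h1
  have hcomm : ∀ a b : G, ⁅a, b⁆ ∈ zpowers c := by
    intro a b
    let T : Subgroup G :=
      { carrier := {a | ⁅a, b⁆ ∈ zpowers c}
        mul_mem' := fun {u v} hu hv => by
          change ⁅u * v, b⁆ ∈ zpowers c
          rw [comm_mul_left h2]
          exact mul_mem hu hv
        one_mem' := by
          change ⁅(1 : G), b⁆ ∈ zpowers c
          simp
        inv_mem' := fun {u} hu => by
          change ⁅u⁻¹, b⁆ ∈ zpowers c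
          have h1 := comm_mul_left h2 u⁻¹ u b
          rw [inv_mul_cancel, commutatorElement_one_left] at h1
          rw [eq_inv_of_mul_eq_one_left h1.symm]
          exact inv_mem hu }
    refine hgen T ?_ (fun w hwS hwM => ?_) a
    · exact mem_zpowers_of_cyclic (hfin y) hcy (comm_mem_left (hn y hyS) b)
        (by rw [hco]; exact hall _ _)
    · exact mem_zpowers_of_cyclic (hfin w) (hcw w hwS hwM) (comm_mem_left (hn w hwS) b)
        (by rw [hco]; exact hall _ _)
  have hexN : ∃ e : ℕ, ∀ g : G, g ^ p ^ e = 1 := ⟨N, hexp⟩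
  have hke : k + 1 ≤ Nat.find hexN := by
    have h1 := orderOf_dvd_of_pow_eq_one (Nat.find_spec hexN c)
    rw [hco] at h1
    exact (Nat.pow_dvd_pow_iff_le_right hp.one_lt).1 h1
  obtain ⟨j, hj⟩ := Nat.exists_eq_add_of_le' hke
  have he1 : ∀ g : G, (g ^ p ^ j) ^ p ^ (k + 1) = 1 := fun g => by
    rw [← pow_mul, ← pow_add, ← hj]
    exact Nat.find_spec hexN g
  obtain ⟨x, hx⟩ : ∃ x : G, (x ^ p ^ j) ^ p ^ k ≠ 1 := by
    have := Nat.find_min hexN (show j + k < Nat.find hexN by omega)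
    push Not at this
    obtain ⟨x, hx⟩ := this
    exact ⟨x, by rwa [← pow_mul, ← pow_add]⟩
  have hpow : ∀ g : G, g ^ p ^ j ∈ zpowers c := by
    let H : Subgroup G :=
      { carrier := {g | g ^ p ^ j ∈ zpowers c}
        mul_mem' := fun {u v} hu hv => by
          change (u * v) ^ p ^ j ∈ zpowers c
          rw [mul_pow_class_two h2]
          exact mul_mem (mul_mem hu hv) (pow_mem (hcomm v u) _)
        one_mem' := by
          change (1 : G) ^ p ^ j ∈ zpowers c
          simp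
        inv_mem' := fun {u} hu => by
          change u⁻¹ ^ p ^ j ∈ zpowers c
          rw [inv_pow]
          exact inv_mem hu }
    refine hgen H ?_ fun w hwS hwM => ?_
    · exact mem_zpowers_of_cyclic (hfin y) hcy (pow_mem (mem_zpowers y) _)
        (by rw [hco]; exact he1 _)
    · exact mem_zpowers_of_cyclic (hfin w) (hcw w hwS hwM) (pow_mem (mem_zpowers w) _)
        (by rw [hco]; exact he1 _)
  have hxo : orderOf (x ^ p ^ j) = p ^ (k + 1) := orderOf_eq_prime_pow hx (he1 x)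
  have hcx : zpowers c = zpowers (x ^ p ^ j) := by
    refine le_antisymm (zpowers_le.2 ?_) (zpowers_le.2 (hpow x))
    exact mem_zpowers_of_cyclic (hfin c) (hpow x) (mem_zpowers c) (by rw [hxo]; exact hall _ _)
  exact ⟨j, x, fun a b => hcx ▸ hcomm a b, ⟨w₀, y, hw₀S, hyS, hcx⟩, fun g => hcx ▸ hpow g⟩

end Pool.Agent.P.MP_b1a016_al
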