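import Mathlib
import Pool.Agent.P.MP_b1a016_al.ClassA

/-! The quaternion case. -/

namespace Pool.Agent.P.MP_b1a016_al

open Subgroup
open scoped commutatorElement

variable {G : Type*} [Group G]

theorem eq_one_or_of_sq {c x : G} (hc : c ^ 2 = 1) (hx : x ∈ zpowers c) : x = 1 ∨ x = c := by
  obtain ⟨m, rfl⟩ := mem_zpowers_iff.1 hx
  have h2 : c ^ (2 : ℤ) = 1 := by exact_mod_cast hc
  obtain ⟨k, rfl | rfl⟩ := Int.even_or_odd' m
  · left
    rw [zpow_mul, h2, one_zpow]
  · right
    rw [zpow_add, zpow_mul, h2, one_zpow, one_mul, zpow_one]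

theorem exists_complement {c : G} (hc1 : c ≠ 1)
    (hz : ∀ z ∈ center G, z ^ 2 = 1) :
    ∃ E : Subgroup G, E ≤ center G ∧ c ∉ E ∧ ∀ z ∈ center G, z ∈ E ∨ c * z ∈ E := by
  obtain ⟨E, -, hE⟩ := zorn_le_nonempty₀ {E : Subgroup G | E ≤ center G ∧ c ∉ E}
    (fun ch hch hchain y hy => by
      refine ⟨sSup ch, ⟨sSup_le fun E hE => (hch hE).1, fun h => ?_⟩, fun z hz => le_sSup hz⟩
      obtain ⟨E, hE, hcE⟩ := (mem_sSup_of_directedOn ⟨y, hy⟩ hchain.directedOn).1 h
      exact (hch hE).2 hcE) ⊥ ⟨bot_le, by simpa using hc1⟩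
  refine ⟨E, hE.prop.1, hE.prop.2, fun z hzc => ?_⟩
  by_cases h : c ∈ E ⊔ zpowers z
  · have hN : (zpowers z).Normal := ⟨fun n hn g => by
      have h1 : n ∈ center G := (zpowers_le.2 hzc) hn
      rw [mem_center_iff.1 h1 g]
      simpa using hn⟩
    obtain ⟨e, he, u, hu, heu⟩ := mem_sup_of_normal_right.1 h
    rcases eq_one_or_of_sq (hz z hzc) hu with rfl | rfl
    · exact absurd (by simpa [← heu] using he) hE.prop.2
    · right
      rw [← heu, mul_assoc, ← sq, hz u hzc, mul_one]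
      exact he
  · left
    have h1 : E ⊔ zpowers z ≤ E :=
      hE.le_of_ge ⟨sup_le hE.prop.1 (zpowers_le.2 hzc), h⟩ le_sup_left
    exact h1 (mem_sup_right (mem_zpowers z))

theorem exists_quaternion_hom {c w t : G} (hc2 : c ^ 2 = 1) (hw : w ^ 2 = c) (ht : t ^ 2 = c)
    (hwt : ⁅w, t⁆ = c) :
    ∃ f : QuaternionGroup 2 →* G, f (.a 1) = w ∧ f (.xa 0) = t ∧ f (.a 2) = c := by
  have hw4 : w ^ (2 * 2) = 1 := by rw [pow_mul, hw, hc2]
  let F : ZMod (2 * 2) → G := fun i => w ^ i.val
  have hF : ∀ i j, F (i + j) = F i * F j := fun i j => by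
    simp only [F]
    rw [ZMod.val_add, ← pow_eq_pow_mod _ hw4, pow_add]
  have hF0 : F 0 = 1 := by simp [F]
  have hFn : ∀ i, F (-i) = (F i)⁻¹ := fun i => by
    apply eq_inv_of_mul_eq_one_left
    rw [← hF, neg_add_cancel, hF0]
  have hs : SemiconjBy t w⁻¹ w := by
    have h1 : w * t * w⁻¹ * t⁻¹ = w ^ 2 := by rw [hw, ← hwt, commutatorElement_def]
    have h2 : t * w⁻¹ * t⁻¹ = w := by
      apply mul_left_cancel (a := w)
      rw [← sq, ← h1]
      group
    change t * w⁻¹ = w * t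
    calc t * w⁻¹ = t * w⁻¹ * t⁻¹ * t := by group
      _ = w * t := by rw [h2]
  have hFt : ∀ i, F i * t = t * F (-i) := fun i => by
    rw [hFn]
    simp only [F]
    rw [← inv_pow]
    exact (hs.pow_right i.val).eq.symm
  have hF2 : F ((2 : ℕ) : ZMod (2 * 2)) = t * t := by
    have : ((2 : ℕ) : ZMod (2 * 2)).val = 2 := by decide
    simp only [F]
    rw [this, hw, ← ht, sq]
  let f : QuaternionGroup 2 → G := fun q => match q with
    | .a i => F i
    | .xa i => t * F i
  refine ⟨MonoidHom.mk' f ?_, ?_, ?_, ?_⟩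
  · rintro (i | i) (j | j)
    · exact hF i j
    · change t * F (j - i) = F i * (t * F j)
      rw [← mul_assoc, hFt, mul_assoc, ← hF, sub_eq_neg_add]
    · change t * F (i + j) = t * F i * F j
      rw [hF, mul_assoc]
    · change F (((2 : ℕ) : ZMod (2 * 2)) + j - i) = t * F i * (t * F j)
      rw [mul_assoc, ← mul_assoc (F i), hFt, add_sub_assoc, hF, hF2, sub_eq_neg_add, hF]
      simp only [mul_assoc]
  · have : (1 : ZMod (2 * 2)).val = 1 := by decide
    change w ^ (1 : ZMod (2 * 2)).val = w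
    rw [this, pow_one]
  · change t * F 0 = t
    rw [hF0, mul_one]
  · have : (2 : ZMod (2 * 2)).val = 2 := by decide
    change w ^ (2 : ZMod (2 * 2)).val = c
    rw [this, hw]

theorem quaternion_cases (q : QuaternionGroup 2) :
    q = 1 ∨ q = .a 2 ∨ ⁅q, (.a 1 : QuaternionGroup 2)⁆ = .a 2 ∨
      ⁅q, (.xa 0 : QuaternionGroup 2)⁆ = .a 2 := by
  simp only [commutatorElement_def]
  rcases q with i | i <;> revert i <;> decide

theorem quaternion_conj (q r : QuaternionGroup 2) : r * q * r⁻¹ = q ∨ r * q * r⁻¹ = q ^ 3 := by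
  rcases q with i | i <;> rcases r with j | j <;> revert i j <;> decide

theorem quaternion_structure {S : Subgroup G} (hn : ∀ x, x ∉ S → (zpowers x).Normal)
    {c w t : G} (hc : c ∈ center G) (hc2 : c ^ 2 = 1) (hc1 : c ≠ 1)
    (hcomm : ∀ a b : G, ⁅a, b⁆ ∈ zpowers c) (hsq : ∀ g : G, g ^ 2 ∈ zpowers c)
    (hw : w ∉ S) (ht : t ∉ S) (hwt : ⁅w, t⁆ = c) :
    ∃ E : Subgroup G, (∀ e ∈ E, e ^ 2 = 1) ∧ Nonempty (G ≃* QuaternionGroup 2 × E) := by
  have h2 : ∀ a b : G, ⁅a, b⁆ ∈ center G := fun a b => (zpowers_le.2 hc) (hcomm a b)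
  have hcc : c * c = 1 := by rw [← sq, hc2]
  have htw : ⁅t, w⁆ = c := by
    rw [← commutatorElement_inv, hwt]
    exact inv_eq_of_mul_eq_one_left hcc
  have hU : ∀ u, u ∉ S → ∀ g, ⁅u, g⁆ = c → u ^ 2 = c := by
    intro u hu g hg
    rcases eq_one_or_of_sq hc2 (hsq u) with h | h
    · rcases eq_one_or_of_sq h (hg ▸ comm_mem_left (hn u hu) g) with h' | h'
      · exact absurd h' hc1
      · refine absurd ?_ hc1
        rw [← hg, commutatorElement_eq_one_iff_mul_comm, ← h']
        exact (mem_center_iff.1 hc g).symm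
    · exact h
  have hw2 := hU w hw t hwt
  have ht2 := hU t ht w htw
  have hwt2 : (w * t) ^ 2 = c := by
    rw [mul_pow_class_two h2, hw2, ht2, htw, hcc]
    simp
  have hz : ∀ z, Commute z w → Commute z t → z ^ 2 = 1 := by
    intro z hzw hzt
    rcases eq_one_or_of_sq hc2 (hsq z) with h | h
    · exact h
    exfalso
    have key : ∀ u g, Commute z u → Commute z g → u ^ 2 = c → ⁅u, g⁆ = c → u * z ∈ S := by
      intro u g hzu hzg hu hug
      by_contra hS
      have h1 := hU (u * z) hS g (by rw [comm_mul_left h2, hug, hzg.commutator_eq, mul_one])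
      rw [hzu.symm.mul_pow, hu, h, hcc] at h1
      exact hc1 h1.symm
    have h1 := key w t hzw hzt hw2 hwt
    have h3 := key t w hzt hzw ht2 htw
    have h4 := key (w * t) t (hzw.mul_right hzt) hzt hwt2
      (by rw [comm_mul_left h2, hwt, commutatorElement_self, mul_one])
    have h5 : w * z * (t * z) * (w * t * z)⁻¹ = z := by
      calc w * z * (t * z) * (w * t * z)⁻¹ = w * z * w⁻¹ := by group
        _ = z := by rw [← hzw.eq]; group
    have h6 : z ∈ S := h5 ▸ S.mul_mem (S.mul_mem h1 h3) (S.inv_mem h4)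
    exact hw (by simpa using S.mul_mem h1 (S.inv_mem h6))
  obtain ⟨f, hfw, hft, hfc⟩ := exists_quaternion_hom hc2 hw2 ht2 hwt
  have hdec : ∀ g : G, ∃ q z, Commute z w ∧ Commute z t ∧ g = f q * z := by
    intro g
    have key : ∀ q, ⁅f q, w⁆ = ⁅g, w⁆ → ⁅f q, t⁆ = ⁅g, t⁆ →
        ∃ q z, Commute z w ∧ Commute z t ∧ g = f q * z := by
      intro q h1 h3
      have h4 : ∀ v, ⁅f q, v⁆ = ⁅g, v⁆ → Commute ((f q)⁻¹ * g) v := by
        intro v hv
        have h5 := comm_mul_left h2 (f q) ((f q)⁻¹ * g) v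
        rw [mul_inv_cancel_left, hv] at h5
        exact commutatorElement_eq_one_iff_commute.1 (by simpa using h5)
      exact ⟨q, (f q)⁻¹ * g, h4 w h1, h4 t h3, by simp⟩
    rcases eq_one_or_of_sq hc2 (hcomm g w) with h1 | h1 <;>
      rcases eq_one_or_of_sq hc2 (hcomm g t) with h3 | h3
    · exact key 1 (by simp [h1]) (by simp [h3])
    · exact key (.a 1) (by simp [hfw, h1]) (by rw [hfw, h3, hwt])
    · exact key (.xa 0) (by rw [hft, h1, htw]) (by simp [hft, h3])
    · refine key (.a 1 * .xa 0) ?_ ?_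
      · rw [map_mul, hfw, hft, comm_mul_left h2, h1, htw]
        simp
      · rw [map_mul, hfw, hft, comm_mul_left h2, h3, hwt]
        simp
  have hfq : ∀ z, Commute z w → Commute z t → ∀ q, Commute z (f q) := by
    intro z hzw hzt q
    have ha : ∀ i, Commute z (f (.a i)) := by
      intro i
      have : (QuaternionGroup.a i : QuaternionGroup 2) = .a 1 ^ i.val := by
        rw [QuaternionGroup.a_one_pow, ZMod.natCast_zmod_val]
      rw [this, map_pow, hfw]
      exact hzw.pow_right _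
    rcases q with i | i
    · exact ha i
    · have : (QuaternionGroup.xa i : QuaternionGroup 2) = .xa 0 * .a i := by simp
      rw [this, map_mul, hft]
      exact hzt.mul_right (ha i)
  have hcen : ∀ z, Commute z w → Commute z t → z ∈ center G := by
    intro z hzw hzt
    refine mem_center_iff.2 fun g => ?_
    obtain ⟨q, y, hyw, hyt, rfl⟩ := hdec g
    have hzy : Commute z y := by
      have h1 := hz (z * y) (hzw.mul_left hyw) (hzt.mul_left hyt)
      rw [mul_pow_class_two h2, hz z hzw hzt, hz y hyw hyt] at h1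
      exact (commutatorElement_eq_one_iff_commute.1 (by simpa using h1)).symm
    exact ((hfq z hzw hzt q).mul_right hzy).symm.eq
  have hz' : ∀ z ∈ center G, z ^ 2 = 1 := fun z h =>
    hz z (mem_center_iff.1 h w).symm (mem_center_iff.1 h t).symm
  obtain ⟨E, hE, hcE, hEz⟩ := exists_complement hc1 hz'
  refine ⟨E, fun e he => hz' e (hE he), ⟨(MulEquiv.ofBijective
    (MonoidHom.noncommCoprod f E.subtype fun q e => mem_center_iff.1 (hE e.2) (f q)) ⟨?_, ?_⟩).symm⟩⟩
  · rw [injective_iff_map_eq_one]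
    rintro ⟨q, e⟩ h
    change f q * (e : G) = 1 at h
    have h1 : f q ∈ E := by
      rw [eq_inv_of_mul_eq_one_left h]
      exact E.inv_mem e.2
    have h3 : ∀ r : QuaternionGroup 2, ⁅q, r⁆ ≠ .a 2 := by
      intro r hr
      apply hc1
      rw [← hfc, ← hr, map_commutatorElement, commutatorElement_eq_one_iff_mul_comm]
      exact (mem_center_iff.1 (hE h1) (f r)).symm
    rcases quaternion_cases q with hq | hq | hq | hq
    · subst hq
      have : e = 1 := Subtype.ext (by simpa using h)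
      rw [this]
      rfl
    · exact absurd (by rwa [hq, hfc] at h1) hcE
    · exact absurd hq (h3 _)
    · exact absurd hq (h3 _)
  · intro g
    obtain ⟨q, z, hzw, hzt, rfl⟩ := hdec g
    rcases hEz z (hcen z hzw hzt) with h | h
    · exact ⟨(q, ⟨z, h⟩), rfl⟩
    · refine ⟨(q * .a 2, ⟨c * z, h⟩), ?_⟩
      change f (q * .a 2) * (c * z) = f q * z
      rw [map_mul, hfc, mul_assoc, ← mul_assoc c, hcc, one_mul]

theorem normal_of_quaternion {E : Subgroup G} (hE : ∀ e ∈ E, e ^ 2 = 1)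
    (φ : G ≃* QuaternionGroup 2 × E) (L : Subgroup G) : L.Normal := by
  refine ⟨fun x hx g => ?_⟩
  have hE' : ∀ e : E, e * e = 1 := fun e => Subtype.ext (by simpa [sq] using hE e e.2)
  have hcomm : ∀ e e' : E, e * e' = e' * e := fun e e' => by
    have h1 : ∀ e : E, e⁻¹ = e := fun e => inv_eq_of_mul_eq_one_left (hE' e)
    rw [← h1 (e * e'), mul_inv_rev, h1, h1]
  have h2 : (φ g).2 * (φ x).2 * (φ g).2⁻¹ = (φ x).2 := by
    rw [hcomm (φ g).2]
    group
  rcases quaternion_conj (φ x).1 (φ g).1 with h | h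
  · have : g * x * g⁻¹ = x := φ.injective (by
      rw [map_mul, map_mul, map_inv]
      exact Prod.ext h h2)
    rwa [this]
  · have : g * x * g⁻¹ = x ^ 3 := φ.injective (by
      rw [map_mul, map_mul, map_inv, map_pow]
      refine Prod.ext h (h2.trans ?_)
      change (φ x).2 = (φ x).2 ^ 3
      rw [pow_succ, sq, hE', one_mul])
    rw [this]
    exact L.pow_mem hx 3

end Pool.Agent.P.MP_b1a016_al
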