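import Mathlib
import Pool.Agent.P.MP_b1a016_al.Cappitt
import Pool.Agent.P.MP_b1a016_al.ClassB

/-! The converse, the topological part and the two halves of the classification. -/

namespace Pool.Agent.P.MP_b1a016_al

open Subgroup
open scoped commutatorElement

section Abstract

variable {G : Type*} [Group G]

theorem power_converse {p j : ℕ} (hp : p.Prime) (hj : 2 < p ^ j) {x : G}
    (hx : commutator G = zpowers (x ^ p ^ j)) (hpow : ∀ g : G, g ^ p ^ j ∈ commutator G)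
    (hexp : ∀ g : G, g ^ p ^ (2 * j) = 1) (hna : ∃ a b : G, a * b ≠ b * a) :
    ∃ M : Subgroup G, M ≠ ⊤ ∧ (∀ L : Subgroup G, ¬ L.Normal → L ≤ M) ∧
      ∃ D : Set G, D.Finite ∧ ∀ g, g ∈ M ↔ g ^ p ^ j ∈ D := by
  have : Fact p.Prime := ⟨hp⟩
  set c := x ^ p ^ j with hc
  have hcomm : ∀ a b : G, ⁅a, b⁆ ∈ zpowers c := fun a b =>
    hx ▸ commutator_mem_commutator (mem_top a) (mem_top b)
  have hc1 : c ≠ 1 := by
    intro h
    obtain ⟨a, b, hab⟩ := hna
    have h1 := hcomm a b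
    rw [h, zpowers_one_eq_bot, mem_bot] at h1
    exact hab (commutatorElement_eq_one_iff_mul_comm.1 h1)
  obtain ⟨k, -, hk⟩ := (Nat.dvd_prime_pow hp).1 (orderOf_dvd_of_pow_eq_one (hexp c))
  have hk0 : k ≠ 0 := by
    rintro rfl
    exact hc1 (orderOf_eq_one_iff.1 (by simpa using hk))
  have hpc : p ∣ orderOf c := hk ▸ dvd_pow_self p hk0
  have hcN : (zpowers c).Normal := hx ▸ inferInstance
  have hconj : ∀ g : G, ∃ a : ℤ, g * c * g⁻¹ = c ^ a := fun g => by
    obtain ⟨a, ha⟩ := mem_zpowers_iff.1 (hcN.conj_mem c (mem_zpowers c) g)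
    exact ⟨a, ha.symm⟩
  have hD : ∀ m : ℤ, (p : ℤ) ∣ m → c ^ m ∈ zpowers (c ^ p) := by
    rintro _ ⟨m, rfl⟩
    rw [zpow_mul, zpow_natCast]
    exact zpow_mem_zpowers _ _
  have hDN : (zpowers (c ^ p)).Normal := ⟨fun d hd g => by
    obtain ⟨m, rfl⟩ := mem_zpowers_iff.1 hd
    obtain ⟨a, ha⟩ := hconj g
    have h1 : (c ^ p) ^ m = c ^ ((p : ℤ) * m) := by rw [zpow_mul, zpow_natCast]
    rw [h1, conj_zpow_eq ha]
    exact hD (a * (p * m)) ⟨a * m, by ring⟩⟩
  have hfer : ∀ g : G, ⁅g, c⁆ ∈ zpowers (c ^ p) := by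
    intro g
    obtain ⟨a, ha⟩ := hconj g
    have h1 : ∀ n : ℕ, g ^ n * c * (g ^ n)⁻¹ = c ^ (a ^ n) := by
      intro n
      induction n with
      | zero => simp
      | succ n ih =>
        calc g ^ (n + 1) * c * (g ^ (n + 1))⁻¹ = g * (g ^ n * c * (g ^ n)⁻¹) * g⁻¹ := by group
          _ = c ^ (a ^ (n + 1)) := by rw [ih, conj_zpow_eq ha, pow_succ']
    have h2 := h1 (p ^ (2 * j))
    rw [hexp g, one_mul, inv_one, mul_one] at h2
    have h3 : (orderOf c : ℤ) ∣ a ^ p ^ (2 * j) - 1 :=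
      orderOf_dvd_sub_iff_zpow_eq_zpow.2 (by rw [← h2, zpow_one])
    have h4 : (p : ℤ) ∣ a ^ p ^ (2 * j) - 1 := (Int.natCast_dvd_natCast.2 hpc).trans h3
    have h5 : (p : ℤ) ∣ a - 1 := by
      rw [← ZMod.intCast_zmod_eq_zero_iff_dvd] at h4 ⊢
      push_cast at h4 ⊢
      rwa [ZMod.pow_card_pow] at h4
    have h6 : ⁅g, c⁆ = c ^ (a - 1) := by
      rw [commutatorElement_def, ha, zpow_sub, zpow_one]
    rw [h6]
    exact hD _ h5
  let π : G →* G ⧸ zpowers (c ^ p) := QuotientGroup.mk' _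
  have hπ : ∀ g, π g = 1 ↔ g ∈ zpowers (c ^ p) := fun g => QuotientGroup.eq_one_iff g
  have hsurj : Function.Surjective π := QuotientGroup.mk'_surjective _
  have hcQ : π c ∈ center (G ⧸ zpowers (c ^ p)) := by
    refine mem_center_iff.2 fun g => ?_
    obtain ⟨g, rfl⟩ := hsurj g
    rw [← commutatorElement_eq_one_iff_mul_comm, ← map_commutatorElement, hπ]
    exact hfer g
  have hQ : ∀ a b : G ⧸ zpowers (c ^ p), ∃ m : ℤ, ⁅a, b⁆ = π c ^ m := by
    intro a b
    obtain ⟨a, rfl⟩ := hsurj a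
    obtain ⟨b, rfl⟩ := hsurj b
    obtain ⟨m, hm⟩ := mem_zpowers_iff.1 (hcomm a b)
    exact ⟨m, by rw [← map_commutatorElement, ← hm, map_zpow]⟩
  have h2Q : ∀ a b : G ⧸ zpowers (c ^ p), ⁅a, b⁆ ∈ center (G ⧸ zpowers (c ^ p)) := by
    intro a b
    obtain ⟨m, hm⟩ := hQ a b
    rw [hm]
    exact zpow_mem hcQ m
  have hpQ : ∀ a b : G ⧸ zpowers (c ^ p), ⁅a, b⁆ ^ (p ^ j).choose 2 = 1 := by
    intro a b
    obtain ⟨m, hm⟩ := hQ a b
    obtain ⟨r, hr⟩ := hp.dvd_choose_pow (n := j) (k := 2) (by norm_num) hj.ne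
    have h1 : π c ^ p = 1 := by
      rw [← map_pow, hπ]
      exact mem_zpowers _
    rw [hm, hr, pow_mul, ← zpow_natCast (π c ^ m) p, ← zpow_mul, mul_comm m, zpow_mul,
      zpow_natCast, h1, one_zpow, one_pow]
  let M : Subgroup G :=
    { carrier := {g | g ^ p ^ j ∈ zpowers (c ^ p)}
      mul_mem' := fun {u v} hu hv => by
        change (u * v) ^ p ^ j ∈ zpowers (c ^ p)
        have hu' : π u ^ p ^ j = 1 := by rw [← map_pow, hπ]; exact hu
        have hv' : π v ^ p ^ j = 1 := by rw [← map_pow, hπ]; exact hv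
        rw [← hπ, map_pow, map_mul, mul_pow_class_two h2Q, hu', hv', hpQ, one_mul, one_mul]
      one_mem' := by
        change (1 : G) ^ p ^ j ∈ zpowers (c ^ p)
        simp
      inv_mem' := fun {u} hu => by
        change u⁻¹ ^ p ^ j ∈ zpowers (c ^ p)
        rw [inv_pow]
        exact inv_mem hu }
  refine ⟨M, fun h => ?_, fun L hL y hy => ?_, zpowers (c ^ p), ?_, fun g => Iff.rfl⟩
  · have h1 : x ∈ M := h ▸ mem_top x
    have h2 : p.gcd (orderOf c) = 1 := mem_zpowers_pow_iff.1 h1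
    exact hp.one_lt.ne' (by rwa [Nat.gcd_eq_left hpc] at h2)
  · by_contra hyM
    apply hL
    obtain ⟨a, ha⟩ := mem_zpowers_iff.1 (hx ▸ hpow y)
    have h1 : ¬ (p : ℤ) ∣ a := fun h => hyM (by
      change y ^ p ^ j ∈ zpowers (c ^ p)
      rw [← ha]
      exact hD a h)
    have h2 : c ∈ zpowers (c ^ a) := by
      rw [mem_zpowers_zpow_iff, hk]
      have h3 : IsCoprime a (p : ℤ) :=
        ((Nat.prime_iff_prime_int.1 hp).coprime_iff_not_dvd.2 h1).symm
      have h4 : IsCoprime a ((p : ℤ) ^ k) := h3.pow_right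
      exact_mod_cast Int.isCoprime_iff_gcd_eq_one.1 h4
    refine Normal.of_commutator_le G ?_
    rw [hx, zpowers_le]
    rw [ha] at h2
    exact (zpowers_le.2 (L.pow_mem hy _)) h2
  · exact (isOfFinOrder_iff_pow_eq_one.2 ⟨p ^ (2 * j), pow_pos hp.pos _, hexp _⟩).finite_zpowers

theorem classify_abstract {p N : ℕ} (hp : p.Prime) (hexp : ∀ g : G, g ^ p ^ N = 1)
    {S : Subgroup G} (hS : S ≠ ⊤) (hn : ∀ x, x ∉ S → (zpowers x).Normal)
    (hna : ∃ a b : G, a * b ≠ b * a) :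
    (∃ (j : ℕ) (x : G), 2 < p ^ j ∧ commutator G = zpowers (x ^ p ^ j) ∧
        (∀ g : G, g ^ p ^ j ∈ commutator G) ∧ ∀ g : G, g ^ p ^ (2 * j) = 1) ∨
      (p = 2 ∧ ∃ E : Subgroup G, (∀ e ∈ E, e ^ 2 = 1) ∧
        Nonempty (G ≃* QuaternionGroup 2 × E)) := by
  have h2 := class_two hS hn
  obtain ⟨j, x, hcomm, ⟨w, t, hw, ht, hwt⟩, hpow⟩ := power_structure hp hexp hS hn hna
  have hcen : zpowers (x ^ p ^ j) ≤ center G := hwt ▸ zpowers_le.2 (h2 w t)
  have hcj : ⁅w, t⁆ ^ p ^ j = 1 := by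
    rw [← comm_pow_left h2, commutatorElement_eq_one_iff_mul_comm]
    exact (mem_center_iff.1 (hcen (hpow w)) t).symm
  have hc1 : ⁅w, t⁆ ≠ 1 := by
    intro h
    obtain ⟨a, b, hab⟩ := hna
    have h1 := hcomm a b
    rw [← hwt, h, zpowers_one_eq_bot, mem_bot] at h1
    exact hab (commutatorElement_eq_one_iff_mul_comm.1 h1)
  by_cases hj : 2 < p ^ j
  · left
    have hx : commutator G = zpowers (x ^ p ^ j) := by
      refine le_antisymm (commutator_le.2 fun a _ b _ => hcomm a b) ?_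
      rw [← hwt, zpowers_le]
      exact commutator_mem_commutator (mem_top w) (mem_top t)
    refine ⟨j, x, hj, hx, fun g => hx ▸ hpow g, fun g => ?_⟩
    obtain ⟨m, hm⟩ := mem_zpowers_iff.1 (hwt ▸ hpow g)
    rw [two_mul, pow_add, pow_mul, ← hm, ← zpow_natCast, ← zpow_mul, mul_comm, zpow_mul,
      zpow_natCast, hcj, one_zpow]
  · right
    have hj0 : j ≠ 0 := by
      rintro rfl
      exact hc1 (by simpa using hcj)
    have hle : p ≤ p ^ j := Nat.le_self_pow hj0 p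
    have hp2 := hp.two_le
    have hpj : p ^ j = 2 := by omega
    refine ⟨by omega, ?_⟩
    rw [hpj] at hcj hcomm hpow hwt
    exact quaternion_structure hn (h2 w t) hcj hc1 (fun a b => hwt ▸ hcomm a b)
      (fun g => hwt ▸ hpow g) hw ht rfl

end Abstract

variable {G : Type*} [Group G] [TopologicalSpace G] [IsTopologicalGroup G] [CompactSpace G]
  [TotallyDisconnectedSpace G] [T2Space G]

theorem normal_zpowers_outside {p : ℕ} (hp : p.Prime)
    (hpro : ∀ N : Subgroup G, ∀ [N.Normal], IsOpen (N : Set G) → IsPGroup p (G ⧸ N))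
    {S : Subgroup G} (hS : S ≠ ⊤) (hn : ∀ x, x ∉ S → (zpowers x).topologicalClosure.Normal)
    {x : G} (hx : x ∉ S) : (zpowers x).Normal ∧ (x ∉ center G → IsOfFinOrder x) := by
  by_cases hc : x ∈ center G
  · refine ⟨⟨fun n hn g => ?_⟩, fun h => absurd hc h⟩
    rw [mem_center_iff.1 ((zpowers_le.2 hc) hn) g]
    simpa using hn
  · obtain ⟨g, hg, hxg⟩ : ∃ g, g ∉ S ∧ g * x ≠ x * g := by
      by_contra h
      push Not at h
      exact hc (central_of_outside hS h)
    obtain ⟨n, hn'⟩ := torsion_of_not_commute hp hpro (hn x hx) (hn g hg) hxg.symm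
    refine ⟨?_, fun _ => isOfFinOrder_iff_pow_eq_one.2 ⟨n + 1, n.succ_pos, hn'⟩⟩
    rw [← closure_zpowers_of_pow n.succ_pos hn']
    exact hn x hx

theorem prime_power_exponent {p : ℕ} (hp : p.Prime)
    (hpro : ∀ N : Subgroup G, ∀ [N.Normal], IsOpen (N : Set G) → IsPGroup p (G ⧸ N))
    {S : Subgroup G} (hS : S ≠ ⊤) (hn : ∀ x, x ∉ S → (zpowers x).topologicalClosure.Normal)
    (hna : ∃ a b : G, a * b ≠ b * a) : ∃ N : ℕ, ∀ g : G, g ^ p ^ N = 1 := by
  have h2 := class_two hS fun x hx => (normal_zpowers_outside hp hpro hS hn hx).1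
  have htor : ∀ g : G, IsOfFinOrder g := by
    let T : Subgroup G :=
      { carrier := {g | IsOfFinOrder g}
        mul_mem' := fun {u v} hu hv => by
          obtain ⟨m, hm, hum⟩ := isOfFinOrder_iff_pow_eq_one.1 hu
          obtain ⟨n, hn, hvn⟩ := isOfFinOrder_iff_pow_eq_one.1 hv
          refine isOfFinOrder_iff_pow_eq_one.2 ⟨m * n * m, by positivity, ?_⟩
          rw [pow_mul, mul_pow_class_two h2, pow_mul u, hum, one_pow, mul_comm m n, pow_mul v,
            hvn, one_pow, one_mul, one_mul, ← pow_mul, mul_comm, pow_mul, ← comm_pow_right h2,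
            hum, commutatorElement_one_right, one_pow]
        one_mem' := IsOfFinOrder.one
        inv_mem' := fun {u} hu => IsOfFinOrder.inv hu }
    obtain ⟨y, hyS, hy⟩ : ∃ y, y ∉ S ∧ y ∉ center G := by
      by_contra h
      push Not at h
      obtain ⟨a, b, hab⟩ := hna
      exact hab (mem_center_iff.1 ((two_cover hS h) ▸ mem_top b) a)
    have hyT : y ∈ T := (normal_zpowers_outside hp hpro hS hn hyS).2 hy
    have hC : centralizer ({y} : Set G) ≠ ⊤ := fun h =>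
      hy (mem_center_iff.2 fun g => mem_centralizer_singleton_iff.1 (h ▸ mem_top g))
    have hU : ∀ w, w ∉ S → w ∉ centralizer ({y} : Set G) → w ∈ T := fun w hw hwy =>
      (normal_zpowers_outside hp hpro hS hn hw).2 fun h =>
        hwy (mem_centralizer_singleton_iff.2 (mem_center_iff.1 h y).symm)
    have hT : T = ⊤ := by
      refine two_cover hC fun g hg => ?_
      by_cases hgS : g ∈ S
      · have h1 : g * y ∈ T := by
          refine hU _ (fun h => hyS ?_) (fun h => hg ?_)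
          · simpa using S.mul_mem (S.inv_mem hgS) h
          · have h3 : y ∈ centralizer ({y} : Set G) := mem_centralizer_singleton_iff.2 rfl
            simpa using mul_mem h (inv_mem h3)
        simpa using T.mul_mem h1 (T.inv_mem hyT)
      · exact hU g hgS hg
    exact fun g => (hT ▸ mem_top g : g ∈ T)
  obtain ⟨n, x, hx⟩ := nonempty_interior_of_iUnion_of_closed
    (f := fun n : ℕ => {y : G | y ^ (n + 1) = 1})
    (fun n => isClosed_eq (by fun_prop) (by fun_prop)) (by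
      refine Set.eq_univ_of_forall fun y => Set.mem_iUnion.2 ?_
      obtain ⟨m, hm, hy⟩ := isOfFinOrder_iff_pow_eq_one.1 (htor y)
      exact ⟨m - 1, by simpa [Nat.sub_add_cancel hm] using hy⟩)
  obtain ⟨K, hK, hKo, hKx⟩ := exists_open_normal isOpen_interior hx
  have hx1 : x ^ (n + 1) = 1 := interior_subset (s := {y : G | y ^ (n + 1) = 1}) hx
  have hKexp : ∀ u ∈ K, u ^ ((n + 1) * (n + 1)) = 1 := by
    intro u hu
    have hy : (x * u) ^ (n + 1) = 1 :=
      interior_subset (s := {y : G | y ^ (n + 1) = 1}) (hKx u hu)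
    rw [mul_pow_class_two h2, hx1, one_mul] at hy
    rw [pow_mul, eq_inv_of_mul_eq_one_left hy, inv_pow, ← pow_mul, mul_comm, pow_mul,
      ← comm_pow_right h2, hx1, commutatorElement_one_right, one_pow, inv_one]
  have hfin : Finite (G ⧸ K) := K.quotient_finite_of_isOpen hKo
  have hidx : K.index ≠ 0 := Subgroup.index_ne_zero_of_finite
  have hall : ∀ g : G, g ^ (K.index * ((n + 1) * (n + 1))) = 1 := fun g => by
    rw [pow_mul]
    exact hKexp _ (K.pow_index_mem g)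
  obtain ⟨a, m, hm, he⟩ := Nat.exists_eq_pow_mul_and_not_dvd
    (n := K.index * ((n + 1) * (n + 1))) (by positivity) p hp.ne_one
  refine ⟨a, fun g => ?_⟩
  by_contra hne
  obtain ⟨N, hN, hNo, hNg⟩ := exists_open_normal (U := {g ^ p ^ a}ᶜ) isOpen_compl_singleton
    (g := 1) (by simpa using fun h => hne h.symm)
  obtain ⟨k, hk⟩ := hpro N hNo ((g ^ p ^ a : G) : G ⧸ N)
  have h1 : ((g ^ p ^ a : G) : G ⧸ N) ^ m = 1 := by
    rw [← QuotientGroup.mk_pow, ← pow_mul, ← he, hall, QuotientGroup.mk_one]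
  have h3 : (p ^ k).Coprime m := ((Nat.Prime.coprime_iff_not_dvd hp).2 hm).pow_left k
  have h4 : ((g ^ p ^ a : G) : G ⧸ N) = 1 := by
    have h5 := Nat.dvd_gcd (orderOf_dvd_of_pow_eq_one hk) (orderOf_dvd_of_pow_eq_one h1)
    rw [h3.gcd_eq_one, Nat.dvd_one] at h5
    exact orderOf_eq_one_iff.1 h5
  simpa using hNg _ ((QuotientGroup.eq_one_iff _).1 h4)

theorem classify {p : ℕ} (hp : p.Prime)
    (hpro : ∀ N : Subgroup G, ∀ [N.Normal], IsOpen (N : Set G) → IsPGroup p (G ⧸ N))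
    (hna : ∃ a b : G, a * b ≠ b * a)
    (hS : sSup {L : Subgroup G | IsClosed (L : Set G) ∧ ¬ L.Normal} ≠ ⊤) :
    (∃ (j : ℕ) (x : G), 2 < p ^ j ∧ commutator G = zpowers (x ^ p ^ j) ∧
        (∀ g : G, g ^ p ^ j ∈ commutator G) ∧ ∀ g : G, g ^ p ^ (2 * j) = 1) ∨
      (p = 2 ∧ ∃ E : Subgroup G, (∀ e ∈ E, e ^ 2 = 1) ∧
        Nonempty (G ≃* QuaternionGroup 2 × E)) := by
  have hn : ∀ x, x ∉ sSup {L : Subgroup G | IsClosed (L : Set G) ∧ ¬ L.Normal} →
      (zpowers x).topologicalClosure.Normal := by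
    intro x hx
    by_contra hn
    have hle : (zpowers x).topologicalClosure ≤
        sSup {L : Subgroup G | IsClosed (L : Set G) ∧ ¬ L.Normal} :=
      le_sSup ⟨isClosed_topologicalClosure _, hn⟩
    exact hx (hle (le_topologicalClosure _ (mem_zpowers x)))
  obtain ⟨N, hN⟩ := prime_power_exponent hp hpro hS hn hna
  exact classify_abstract hp hN hS (fun x hx => (normal_zpowers_outside hp hpro hS hn hx).1) hna

omit [CompactSpace G] [TotallyDisconnectedSpace G] in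
theorem classify_converse {p : ℕ} (hp : p.Prime) (hna : ∃ a b : G, a * b ≠ b * a)
    (h : (∃ (j : ℕ) (x : G), 2 < p ^ j ∧ commutator G = zpowers (x ^ p ^ j) ∧
        (∀ g : G, g ^ p ^ j ∈ commutator G) ∧ ∀ g : G, g ^ p ^ (2 * j) = 1) ∨
      (p = 2 ∧ ∃ E : Subgroup G, (∀ e ∈ E, e ^ 2 = 1) ∧
        Nonempty (G ≃* QuaternionGroup 2 × E))) :
    (sSup {L : Subgroup G | ¬ L.Normal}).topologicalClosure ≠ ⊤ := by
  have key : ∀ M : Subgroup G, M ≠ ⊤ → IsClosed (M : Set G) →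
      (∀ L : Subgroup G, ¬ L.Normal → L ≤ M) →
      (sSup {L : Subgroup G | ¬ L.Normal}).topologicalClosure ≠ ⊤ := fun M hM hMc hL h =>
    hM (top_le_iff.1 (h ▸ topologicalClosure_minimal _ (sSup_le hL) hMc))
  rcases h with ⟨j, x, hj, hx, hpow, hexp⟩ | ⟨-, E, hE, ⟨φ⟩⟩
  · obtain ⟨M, hM, hL, D, hD, hMD⟩ := power_converse hp hj hx hpow hexp hna
    refine key M hM ?_ hL
    have : (M : Set G) = (fun g : G => g ^ p ^ j) ⁻¹' D := Set.ext hMD
    rw [this]
    exact hD.isClosed.preimage (by fun_prop)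
  · refine key ⊥ (fun h => ?_) (by simp) fun L hL => absurd (normal_of_quaternion hE φ L) hL
    obtain ⟨a, b, hab⟩ := hna
    have ha : a = 1 := mem_bot.1 (h ▸ mem_top a)
    exact hab (by simp [ha])

end Pool.Agent.P.MP_b1a016_al
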