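import Mathlib
import Pool.Agent.P.MP_b1a016_al.Cappitt

namespace Pool.Agent.P.MP_b1a016_al.FiniteExponentOld

/-- Every non-abelian pro-p Cappitt group has finite exponent, so it is periodic.
`G` is pro-p: a compact Hausdorff totally disconnected group all of whose quotients by open
normal subgroups are p-groups.  The Cappitt condition: the closure of the subgroup generated
by all closed non-normal subgroups is proper. -/
theorem result (p : ℕ) (hp : p.Prime) (G : Type*) [Group G] [TopologicalSpace G]
    [IsTopologicalGroup G] [CompactSpace G] [T2Space G] [TotallyDisconnectedSpace G]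
    (hpro : ∀ N : Subgroup G, ∀ [N.Normal], IsOpen (N : Set G) → IsPGroup p (G ⧸ N))
    (hCappitt :
      (sSup {L : Subgroup G | IsClosed (L : Set G) ∧ ¬ L.Normal}).topologicalClosure ≠ ⊤)
    (hnonab : ∃ a b : G, a * b ≠ b * a) :
    ∃ n : ℕ, 0 < n ∧ ∀ g : G, g ^ n = 1 := by
  refine Pool.Agent.P.MP_b1a016_al.finite_exponent hp hpro _
    (Subgroup.isClosed_topologicalClosure _) hCappitt (fun x hx => ?_) hnonab
  by_contra hn
  apply hx
  refine Subgroup.le_topologicalClosure _ ?_
  have hle : (Subgroup.zpowers x).topologicalClosure ≤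
      sSup {L : Subgroup G | IsClosed (L : Set G) ∧ ¬ L.Normal} :=
    le_sSup ⟨Subgroup.isClosed_topologicalClosure _, hn⟩
  exact hle (Subgroup.le_topologicalClosure _ (Subgroup.mem_zpowers x))

end Pool.Agent.P.MP_b1a016_al.FiniteExponentOld
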